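import Pool.Agent.P.MP_25e1d2_co.Gen3

set_option autoImplicit false

namespace Pool.Agent.Results.MP_25e1d2_co.Classification

/-- The finite sums of a sequence and all shifted sums `p 0 * y n + p 1 * y (n+1) + ...`, for
finitely many rational patterns `p` (coefficient lists of polynomials), can always be given one
colour exactly when every pattern begins and ends with the coefficient 1. -/
theorem result (P : Finset (Polynomial ℚ)) :
    (∀ (r : ℕ) (c : ℕ → Fin r), ∃ y : ℕ → ℕ, (∀ n, 0 < y n) ∧ ∃ col : Fin r,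
      (∀ s : Finset ℕ, s.Nonempty → c (∑ i ∈ s, y i) = col) ∧
      ∀ p ∈ P, ∀ n : ℕ, ∃ z : ℕ, 0 < z ∧
        (z : ℚ) = ∑ i ∈ p.support, p.coeff i * (y (n + i) : ℚ) ∧ c z = col) ↔
    ∀ p ∈ P, p.trailingCoeff = 1 ∧ p.leadingCoeff = 1 :=
  Pool.Agent.P.MP_25e1d2_co.classification P

end Pool.Agent.Results.MP_25e1d2_co.Classification
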